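import Pool.Agent.Y579.DC.Dio

/-!
The true `∀∃` sentences hold in the structure `NN`.
-/

namespace Pool.Agent.Y579.DC

open Pool.Agent.Helper446 Pool.Agent.Helper446.RE Encodable Filter
open Pool.Agent.Helper617.RM Pool.Agent.H869R3.DM

/-- The numeral `1 + ⋯ + 1` in a structure. -/
def numeral (N : L2Structure.{0}) : ℕ → N.M
  | 0 => N.zero
  | n + 1 => N.add (numeral N n) N.one

/-- The value of a polynomial with natural coefficients in a structure. -/
def PT.val (N : L2Structure.{0}) : PT ℕ → (ℕ → N.M) → N.M
  | .var j, v => v j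
  | .nat n, _ => numeral N n
  | .add s t, v => N.add (s.val N v) (t.val N v)
  | .mul s t, v => N.mul (s.val N v) (t.val N v)

/-- The true `∀∃` sentences hold in the structure: if an equation between two polynomials with
natural coefficients, in which the variable `0` is the parameter, is solvable in the natural
numbers for all values of the parameter, then it is so in the structure. -/
def TrueForallExists (N : L2Structure.{0}) : Prop :=
  ∀ s t : PT ℕ, (∀ a : ℕ, ∃ w : ℕ → ℕ, w 0 = a ∧ s.ev w = t.ev w) →
    ∀ a : N.M, ∃ w : ℕ → N.M, w 0 = a ∧ s.val N w = t.val N w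

theorem rep_numeral (n : ℕ) : ∀ᶠ i in (U : Filter ℕ), rep (numeral NN n) i = n := by
  induction n with
  | zero => exact rep_zero
  | succ n ih =>
    filter_upwards [ih, rep_add (numeral NN n) NN.one, rep_one] with i h1 h2 h3
    show rep (NN.add (numeral NN n) NN.one) i = n + 1
    rw [h2, h1, h3]

theorem rep_val (s : PT ℕ) (v : ℕ → NN.M) :
    ∀ᶠ i in (U : Filter ℕ), rep (s.val NN v) i = s.ev fun j => rep (v j) i := by
  induction s with
  | var j => exact Eventually.of_forall fun i => rfl
  | nat n => exact rep_numeral n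
  | add s t ih1 ih2 =>
    filter_upwards [ih1, ih2, rep_add (s.val NN v) (t.val NN v)] with i h1 h2 h3
    simp only [PT.val, PT.ev]
    rw [h3, h1, h2]
  | mul s t ih1 ih2 =>
    filter_upwards [ih1, ih2, rep_mul (s.val NN v) (t.val NN v)] with i h1 h2 h3
    simp only [PT.val, PT.ev]
    rw [h3, h1, h2]

theorem trueForallExists : TrueForallExists NN := by
  intro s t hst x
  -- a bound for the number of variables
  obtain ⟨m, hm⟩ : ∃ m, ∀ j ∈ s.vars ++ t.vars, j < m + 1 := by
    refine ⟨(s.vars ++ t.vars).sum, fun j hj => Nat.lt_succ_of_le ?_⟩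
    exact List.le_sum_of_mem hj
  have hcut : ∀ (u : PT ℕ), (∀ j ∈ u.vars, j < m + 1) → ∀ (z : ℕ) (w : ℕ → ℕ), w 0 = z →
      (u.ev fun j => match j with
        | 0 => z
        | j + 1 => (((List.range m).map fun j => w (j + 1))[j]?).getD 0) = u.ev w := by
    intro u hu z w hw
    refine PT.ev_congr u fun j hj => ?_
    cases j with
    | zero => exact hw.symm
    | succ j =>
      have h1 : j < m := by have := hu _ hj; omega
      simp [h1]
  obtain ⟨y, hy, hy2⟩ := InM.wit (P := fun a b => (s.ev fun j => match j with
      | 0 => a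
      | j + 1 => (((decode b : Option (List ℕ)).getD [])[j]?).getD 0) =
      t.ev fun j => match j with
      | 0 => a
      | j + 1 => (((decode b : Option (List ℕ)).getD [])[j]?).getD 0)
    (RE.eq (c_ev s Computable.fst (by fun_prop)) (c_ev t Computable.fst (by fun_prop)))
    (rep_inM x) (by
      refine Eventually.of_forall fun i => ?_
      obtain ⟨w, hw0, hw⟩ := hst (rep x i)
      refine ⟨encode ((List.range m).map fun j => w (j + 1)), ?_⟩
      simp only [encodek, Option.getD_some]
      rw [hcut s (fun j hj => hm j (by simp [hj])) _ w hw0,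
        hcut t (fun j hj => hm j (by simp [hj])) _ w hw0]
      exact hw)
  have hj : ∀ j : ℕ, InM fun i => (((decode (y i) : Option (List ℕ)).getD [])[j]?).getD 0 :=
    fun j => hy.comp (f := fun b => (((decode b : Option (List ℕ)).getD [])[j]?).getD 0)
      (by fun_prop)
  set v : ℕ → NN.M := fun j => match j with
    | 0 => x
    | j + 1 => mk _ (hj j) with hv
  refine ⟨v, rfl, ?_⟩
  rw [mm_ext]
  have hall : ∀ᶠ i in (U : Filter ℕ), ∀ j ∈ Finset.range m,
      rep (v (j + 1)) i = (((decode (y i) : Option (List ℕ)).getD [])[j]?).getD 0 := by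
    rw [Filter.eventually_all_finset]
    intro j _
    exact rep_mk (hj j)
  filter_upwards [rep_val s v, rep_val t v, hy2, hall] with i h1 h2 h3 h4
  rw [h1, h2]
  have h5 : ∀ (u : PT ℕ), (∀ j ∈ u.vars, j < m + 1) → (u.ev fun j => rep (v j) i) =
      u.ev fun j => match j with
      | 0 => rep x i
      | j + 1 => (((decode (y i) : Option (List ℕ)).getD [])[j]?).getD 0 := by
    intro u hu
    refine PT.ev_congr u fun j hj' => ?_
    cases j with
    | zero => rfl
    | succ j => exact h4 j (Finset.mem_range.2 (by have := hu _ hj'; omega))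
  rw [h5 s fun j hj' => hm j (by simp [hj']), h5 t fun j hj' => hm j (by simp [hj'])]
  exact h3

end Pool.Agent.Y579.DC
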