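import Pool.Agent.H869R3.DM.Comp
import Pool.Agent.H869R3.DM.NegCoh
import Pool.Agent.Helper844.DPRM

/-!
The sets of the structure `NN` and their complements are Diophantine in the structure, without set
parameters. This is a transfer of the theorem of Davis, Putnam, Robinson and Matiyasevich.
-/

namespace Pool.Agent.Y579.DC

open Pool.Agent.Helper446 Pool.Agent.Helper446.RE Encodable Filter
open Pool.Agent.Helper617.RM Pool.Agent.H869R3.DM

/-! ### Polynomials with natural coefficients -/

/-- Polynomial terms. -/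
inductive PT (α : Type) : Type
  | var (a : α) : PT α
  | nat (n : ℕ) : PT α
  | add (s t : PT α) : PT α
  | mul (s t : PT α) : PT α

namespace PT

variable {α : Type}

/-- the value of a term -/
def ev : PT α → (α → ℕ) → ℕ
  | .var a, v => v a
  | .nat n, _ => n
  | .add s t, v => s.ev v + t.ev v
  | .mul s t, v => s.ev v * t.ev v

/-- the value as an integer -/
theorem exists_terms {f : (α → ℕ) → ℤ} (h : IsPoly f) :
    ∃ s t : PT α, ∀ v, f v = (s.ev v : ℤ) - t.ev v := by
  induction h with
  | proj i => exact ⟨.var i, .nat 0, fun v => by simp [ev]⟩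
  | const n =>
    refine ⟨.nat n.toNat, .nat (-n).toNat, fun v => ?_⟩
    simp only [ev]
    omega
  | sub _ _ ih1 ih2 =>
    obtain ⟨s, t, h1⟩ := ih1
    obtain ⟨s', t', h2⟩ := ih2
    refine ⟨.add s t', .add t s', fun v => ?_⟩
    simp only [ev]
    push_cast
    rw [h1, h2]
    ring
  | mul _ _ ih1 ih2 =>
    obtain ⟨s, t, h1⟩ := ih1
    obtain ⟨s', t', h2⟩ := ih2
    refine ⟨.add (.mul s s') (.mul t t'), .add (.mul s t') (.mul t s'), fun v => ?_⟩
    simp only [ev]
    push_cast
    rw [h1, h2]
    ring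

/-- the variables of a term -/
def vars : PT α → List α
  | .var a => [a]
  | .nat _ => []
  | .add s t => s.vars ++ t.vars
  | .mul s t => s.vars ++ t.vars

/-- renaming -/
def ren {β : Type} (ρ : α → β) : PT α → PT β
  | .var a => .var (ρ a)
  | .nat n => .nat n
  | .add s t => .add (s.ren ρ) (t.ren ρ)
  | .mul s t => .mul (s.ren ρ) (t.ren ρ)

theorem ev_ren {β : Type} (ρ : α → β) (s : PT α) (v : β → ℕ) :
    (s.ren ρ).ev v = s.ev fun a => v (ρ a) := by
  induction s with
  | var a => rfl
  | nat n => rfl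
  | add s t ih1 ih2 => simp only [ren, ev, ih1, ih2]
  | mul s t ih1 ih2 => simp only [ren, ev, ih1, ih2]

theorem ev_congr (s : PT α) {v w : α → ℕ} (h : ∀ a ∈ s.vars, v a = w a) : s.ev v = s.ev w := by
  induction s with
  | var a => exact h a (by simp [vars])
  | nat n => rfl
  | add s t ih1 ih2 =>
    simp only [ev]
    rw [ih1 fun a ha => h a (by simp [vars, ha]), ih2 fun a ha => h a (by simp [vars, ha])]
  | mul s t ih1 ih2 =>
    simp only [ev]
    rw [ih1 fun a ha => h a (by simp [vars, ha]), ih2 fun a ha => h a (by simp [vars, ha])]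

end PT

/-- A recursively enumerable set of natural numbers is given by an equation between two terms. -/
theorem exists_eqn {P : ℕ → Prop} (hP : REPred P) :
    ∃ s t : PT ℕ, ∀ z, P z ↔ ∃ w : ℕ → ℕ, w 0 = z ∧ s.ev w = t.ev w := by
  classical
  obtain ⟨β, p, hp⟩ := Pool.Agent.Helper844.Dio.dprm hP
  obtain ⟨s, t, hst⟩ := PT.exists_terms p.2
  let F : List (Unit ⊕ β) := s.vars ++ t.vars
  -- numbering of the variables
  have hF : ∀ a ∈ F, ∃ i, F[i]? = some a := fun a ha => by
    obtain ⟨i, hi, h⟩ := List.mem_iff_getElem.1 ha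
    exact ⟨i, by rw [List.getElem?_eq_getElem hi, h]⟩
  choose! ix hix using hF
  let ρ : Unit ⊕ β → ℕ := fun a => match a with
    | Sum.inl _ => 0
    | Sum.inr b => ix (Sum.inr b) + 1
  refine ⟨s.ren ρ, t.ren ρ, fun z => ?_⟩
  have h1 : P z ↔ ∃ u : β → ℕ, p (Sum.elim (fun _ => z) u) = 0 := hp fun _ => z
  rw [h1]
  have h2 : ∀ v, (p v = 0 ↔ s.ev v = t.ev v) := by
    intro v
    have h3 : p v = (s.ev v : ℤ) - t.ev v := hst v
    rw [h3]
    omega
  constructor
  · rintro ⟨u, hu⟩
    rw [h2] at hu
    -- the assignment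
    let w : ℕ → ℕ := fun n => match n with
      | 0 => z
      | j + 1 => match F[j]? with
        | some (Sum.inr b) => u b
        | _ => 0
    have hw : ∀ a ∈ F, Sum.elim (fun _ => z) u a = w (ρ a) := by
      rintro (⟨⟩ | b) ha
      · rfl
      · have h3 : F[ix (Sum.inr b)]? = some (Sum.inr b) := hix _ ha
        show u b = (match F[ix (Sum.inr b)]? with
          | some (Sum.inr b) => u b
          | _ => 0)
        rw [h3]
    refine ⟨w, rfl, ?_⟩
    rw [PT.ev_ren, PT.ev_ren, ← PT.ev_congr s fun a ha => hw a (by simp [F, ha]),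
      ← PT.ev_congr t fun a ha => hw a (by simp [F, ha])]
    exact hu
  · rintro ⟨w, hw0, hw⟩
    refine ⟨fun b => w (ρ (Sum.inr b)), ?_⟩
    rw [h2]
    rw [PT.ev_ren, PT.ev_ren] at hw
    have h3 : (Sum.elim (fun _ => z) fun b => w (ρ (Sum.inr b)) : Unit ⊕ β → ℕ) =
        fun a => w (ρ a) := by
      funext a
      rcases a with ⟨⟩ | b
      · exact hw0.symm
      · rfl
    rw [h3]
    exact hw

/-! ### Transfer -/

/-- The term of the structure: the variable `0` is replaced by `r`. -/
def tr {N : L2Structure.{0}} (num : ℕ → Term N) (r : Term N) : PT ℕ → Term N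
  | .var 0 => r
  | .var (j + 1) => .var (j + 1)
  | .nat n => num n
  | .add s t => .add (tr num r s) (tr num r t)
  | .mul s t => .mul (tr num r s) (tr num r t)

/-- the numeral -/
noncomputable def num (n : ℕ) : Term NN := .const (mk (fun _ => n) (InM.const n))

theorem val_tr (r : Term NN) (x : ℕ → ℕ) (v : ℕ → NN.M)
    (hr : ∀ᶠ i in (U : Filter ℕ), rep (r.val v) i = x i) (s : PT ℕ) :
    ∀ᶠ i in (U : Filter ℕ), rep ((tr num r s).val v) i =
      s.ev fun j => match j with
        | 0 => x i
        | j + 1 => rep (v (j + 1)) i := by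
  induction s with
  | var j =>
    cases j with
    | zero => exact hr
    | succ j => exact Eventually.of_forall fun i => rfl
  | nat n => exact rep_mk (InM.const n)
  | add s t ih1 ih2 =>
    filter_upwards [ih1, ih2, rep_add ((tr num r s).val v) ((tr num r t).val v)] with i h1 h2 h3
    simp only [tr, Term.val, PT.ev]
    rw [h3, h1, h2]
  | mul s t ih1 ih2 =>
    filter_upwards [ih1, ih2, rep_mul ((tr num r s).val v) ((tr num r t).val v)] with i h1 h2 h3
    simp only [tr, Term.val, PT.ev]
    rw [h3, h1, h2]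

/-- the value of a term at a coded finite sequence is computable -/
theorem c_ev {α : Type*} [Primcodable α] (s : PT ℕ) {z : α → ℕ} {l : α → List ℕ}
    (hz : Computable z) (hl : Computable l) :
    Computable fun a => s.ev fun j => match j with
      | 0 => z a
      | j + 1 => ((l a)[j]?).getD 0 := by
  induction s with
  | var j =>
    cases j with
    | zero => exact hz
    | succ j =>
      simp only [PT.ev]
      fun_prop
  | nat n => simp only [PT.ev]; fun_prop
  | add s t ih1 ih2 => simp only [PT.ev]; fun_prop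
  | mul s t ih1 ih2 => simp only [PT.ev]; fun_prop

/-- `X` is Diophantine: the set of the `x` for which some equation between two terms (that is,
polynomials with coefficients in the structure) has a solution; the variable `0` is `x`. -/
def IsDiophantine (N : L2Structure.{0}) (X : Set N.M) : Prop :=
  ∃ s t : Term N, ∀ x, x ∈ X ↔ ∃ v : ℕ → N.M, v 0 = x ∧ s.val v = t.val v

theorem dio_of_re {A : ℕ → ℕ → Prop} (hA : REPred fun q : ℕ × ℕ => A q.1 q.2) {p : ℕ → ℕ}
    (hp : InM p) : IsDiophantine NN {x | ∀ᶠ i in (U : Filter ℕ), A (p i) (rep x i)} := by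
  classical
  have hre : REPred fun w : ℕ => ∃ q z : ℕ, w = prn q z ∧ A q z := by
    refine RE.exN (p := fun w q => ∃ z, w = prn q z ∧ A q z) ?_
    refine RE.exN (p := fun (w : ℕ × ℕ) z => w.1 = prn w.2 z ∧ A w.2 z) ?_
    refine RE.and (RE.eq (by fun_prop) (by fun_prop)) ?_
    exact RE.comp hA (f := fun w : (ℕ × ℕ) × ℕ => (w.1.2, w.2)) (by fun_prop)
  obtain ⟨s, t, hst⟩ := exists_eqn hre
  have hA' : ∀ q z, A q z ↔ ∃ w : ℕ → ℕ, w 0 = prn q z ∧ s.ev w = t.ev w := by
    intro q z
    rw [← hst]
    constructor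
    · intro h; exact ⟨q, z, rfl, h⟩
    · rintro ⟨q', z', h1, h2⟩
      obtain ⟨rfl, rfl⟩ := prn_inj h1
      exact h2
  set r : Term NN := tpair (.const (mk p hp)) (.var 0) with hr
  have hrv : ∀ v : ℕ → NN.M, ∀ᶠ i in (U : Filter ℕ), rep (r.val v) i = prn (p i) (rep (v 0) i) := by
    intro v
    filter_upwards [rep_pair (mk p hp) (v 0), rep_mk hp] with i h1 h2
    rw [← h2]
    exact h1
  refine ⟨tr num r s, tr num r t, fun x => ?_⟩
  constructor
  · intro hx
    -- a bound for the number of variables
    obtain ⟨m, hm⟩ : ∃ m, ∀ j ∈ s.vars ++ t.vars, j < m + 1 := by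
      refine ⟨(s.vars ++ t.vars).sum, fun j hj => Nat.lt_succ_of_le ?_⟩
      exact List.le_sum_of_mem hj
    have hcut : ∀ (u : PT ℕ), (∀ j ∈ u.vars, j < m + 1) → ∀ (z : ℕ) (w : ℕ → ℕ), w 0 = z →
        (u.ev fun j => match j with
          | 0 => z
          | j + 1 => (((List.range m).map fun j => w (j + 1))[j]?).getD 0) = u.ev w := by
      intro u hu z w hw
      refine PT.ev_congr u fun j hj => ?_
      cases j with
      | zero => exact hw.symm
      | succ j =>
        have h1 : j < m := by have := hu _ hj; omega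
        simp [h1]
    obtain ⟨y, hy, hy2⟩ := InM.wit (P := fun a b => (s.ev fun j => match j with
        | 0 => a
        | j + 1 => (((decode b : Option (List ℕ)).getD [])[j]?).getD 0) =
        t.ev fun j => match j with
        | 0 => a
        | j + 1 => (((decode b : Option (List ℕ)).getD [])[j]?).getD 0)
      (RE.eq (c_ev s Computable.fst (by fun_prop)) (c_ev t Computable.fst (by fun_prop)))
      (x := fun i => prn (p i) (rep x i)) (hp.prn (rep_inM x)) (by
        have hx' : ∀ᶠ i in (U : Filter ℕ), A (p i) (rep x i) := hx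
        filter_upwards [hx'] with i hi
        obtain ⟨w, hw0, hw⟩ := (hA' _ _).1 hi
        refine ⟨encode ((List.range m).map fun j => w (j + 1)), ?_⟩
        simp only [encodek, Option.getD_some]
        rw [hcut s (fun j hj => hm j (by simp [hj])) _ w hw0,
          hcut t (fun j hj => hm j (by simp [hj])) _ w hw0]
        exact hw)
    have hj : ∀ j : ℕ, InM fun i => (((decode (y i) : Option (List ℕ)).getD [])[j]?).getD 0 :=
      fun j => hy.comp (f := fun b => (((decode b : Option (List ℕ)).getD [])[j]?).getD 0)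
        (by fun_prop)
    refine ⟨fun j => match j with
      | 0 => x
      | j + 1 => mk _ (hj j), rfl, ?_⟩
    set v : ℕ → NN.M := fun j => match j with
      | 0 => x
      | j + 1 => mk _ (hj j) with hv
    rw [mm_ext]
    have hall : ∀ᶠ i in (U : Filter ℕ), ∀ j ∈ Finset.range m,
        rep (v (j + 1)) i = (((decode (y i) : Option (List ℕ)).getD [])[j]?).getD 0 := by
      rw [Filter.eventually_all_finset]
      intro j _
      exact rep_mk (hj j)
    filter_upwards [val_tr r _ v (hrv v) s, val_tr r _ v (hrv v) t, hy2, hall] with i h1 h2 h3 h4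
    rw [h1, h2]
    have h5 : ∀ (u : PT ℕ), (∀ j ∈ u.vars, j < m + 1) → (u.ev fun j => match j with
        | 0 => prn (p i) (rep (v 0) i)
        | j + 1 => rep (v (j + 1)) i) = u.ev fun j => match j with
        | 0 => prn (p i) (rep x i)
        | j + 1 => (((decode (y i) : Option (List ℕ)).getD [])[j]?).getD 0 := by
      intro u hu
      refine PT.ev_congr u fun j hj' => ?_
      cases j with
      | zero => rfl
      | succ j => exact h4 j (Finset.mem_range.2 (by have := hu _ hj'; omega))
    rw [h5 s fun j hj' => hm j (by simp [hj']), h5 t fun j hj' => hm j (by simp [hj'])]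
    exact h3
  · rintro ⟨v, rfl, h⟩
    rw [mm_ext] at h
    show ∀ᶠ i in (U : Filter ℕ), A (p i) (rep (v 0) i)
    filter_upwards [val_tr r _ v (hrv v) s, val_tr r _ v (hrv v) t, h] with i h1 h2 h3
    rw [hA']
    rw [h1, h2] at h3
    exact ⟨fun j => match j with
      | 0 => prn (p i) (rep (v 0) i)
      | j + 1 => rep (v (j + 1)) i, rfl, h3⟩

/-- Every set of the structure is Diophantine. -/
theorem dio {X : Set NN.M} (hX : X ∈ NN.Sets) : IsDiophantine NN X := by
  obtain ⟨A1, A0, c1, c0, p, hp, hZ⟩ := hX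
  obtain ⟨s, t, h⟩ := dio_of_re c1 hp
  exact ⟨s, t, fun x => (hZ x).1.trans (h x)⟩

/-- The complement of every set of the structure is Diophantine. -/
theorem dio_compl {X : Set NN.M} (hX : X ∈ NN.Sets) : IsDiophantine NN Xᶜ := by
  obtain ⟨A1, A0, c1, c0, p, hp, hZ⟩ := hX
  obtain ⟨s, t, h⟩ := dio_of_re c0 hp
  exact ⟨s, t, fun x => (hZ x).2.trans (h x)⟩

end Pool.Agent.Y579.DC
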