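import Pool.Agent.Y579.DC.Dio

/-!
The separation principle (an equivalent of weak König's lemma) fails in the structure `NN`.
-/

namespace Pool.Agent.Y579.DC

open Pool.Agent.Helper446 Pool.Agent.Helper446.RE Encodable Filter
open Pool.Agent.Helper617.RM Pool.Agent.H869R3.DM

/-- The separation principle: if two functions have disjoint ranges, there is a set which contains
the range of the first and is disjoint from the range of the second. (Over `RCA₀` it is equivalent
to weak König's lemma.) -/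
def Separation (N : L2Structure.{0}) : Prop :=
  ∀ f g : N.M → N.M, FunIn N f → FunIn N g → (∀ m n, f m ≠ g n) →
    ∃ X ∈ N.Sets, (∀ m, f m ∈ X) ∧ ∀ n, g n ∉ X

/-- the computation with the first index accepts, the one with the second does not yet -/
def sel (z s : ℕ) : Bool :=
  wst ℕ z.unpair.1.unpair.1 s (Nat.pair z.unpair.2 z) &&
    !(wst ℕ z.unpair.1.unpair.2 s (Nat.pair z.unpair.2 z))

def les (z s : ℕ) : Bool :=
  wst ℕ z.unpair.1.unpair.2 s (Nat.pair z.unpair.2 z) &&
    !(wst ℕ z.unpair.1.unpair.1 s (Nat.pair z.unpair.2 z))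

theorem not_both {z s s' : ℕ} (h : sel z s = true) (h' : les z s' = true) : False := by
  simp only [sel, les, Bool.and_eq_true, Bool.not_eq_true'] at h h'
  rcases le_total s s' with hs | hs
  · have := wst_mono hs h.1
    rw [h'.2] at this
    exact absurd this (by simp)
  · have := wst_mono hs h'.1
    rw [h.2] at this
    exact absurd this (by simp)

def fA (x : ℕ) : ℕ := bif les x.unpair.1 x.unpair.2 then 2 * x.unpair.1 + 2 else 0
def fB (x : ℕ) : ℕ := bif sel x.unpair.1 x.unpair.2 then 2 * x.unpair.1 + 2 else 1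

theorem c_fA : Computable fA := by unfold fA les; fun_prop
theorem c_fB : Computable fB := by unfold fB sel; fun_prop

theorem fA_ne_fB (x y : ℕ) : fA x ≠ fB y := by
  unfold fA fB
  rcases h : les x.unpair.1 x.unpair.2 with _ | _ <;>
    rcases h' : sel y.unpair.1 y.unpair.2 with _ | _ <;> simp only [cond_true, cond_false]
  · omega
  · omega
  · omega
  · intro h3
    have h4 : x.unpair.1 = y.unpair.1 := by omega
    rw [h4] at h
    exact not_both h' h

theorem fn_in {f : ℕ → ℕ} (hf : Computable f) :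
    FunIn NN fun x => mk (fun i => f (rep x i)) ((rep_inM x).comp hf) := by
  refine fun_in (X := ∅) (A1 := fun _ _ => False) (A0 := fun _ _ => True) (p := fun _ => 0)
    (RE.const False) (RE.const True) (InM.const 0) computes_empty (InM.const 0)
    (F := fun _ a => f a.2) ?_ (fun x => rep_mk _)
  exact ⟨fun _ => 0, by fun_prop, fun a => f a.1.2,
    hf.comp (g := fun a : (ℕ × ℕ) × ℕ => a.1.2) (by fun_prop), fun _ _ _ _ => rfl⟩

theorem not_separation : ¬ Separation NN := by
  intro hS
  obtain ⟨X, ⟨A1, A0, c1, c0, p, hp, hZ⟩, hA, hB⟩ := hS _ _ (fn_in c_fA) (fn_in c_fB) (by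
    intro m n h
    rw [mm_ext] at h
    refine ev_false (h.and ((rep_mk ((rep_inM m).comp c_fA)).and
      (rep_mk ((rep_inM n).comp c_fB)))) ?_
    rintro i ⟨h1, h2, h3⟩
    exact fA_ne_fB _ _ (h2.symm.trans (h1.trans h3)))
  have r1 : REPred fun w : ℕ => A1 w.unpair.1 (2 * w.unpair.2 + 2) :=
    RE.comp c1 (f := fun w : ℕ => (w.unpair.1, 2 * w.unpair.2 + 2)) (by fun_prop)
  have r0 : REPred fun w : ℕ => A0 w.unpair.1 (2 * w.unpair.2 + 2) :=
    RE.comp c0 (f := fun w : ℕ => (w.unpair.1, 2 * w.unpair.2 + 2)) (by fun_prop)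
  obtain ⟨a, ha⟩ := wst_univ (α := ℕ) r1
  obtain ⟨b, hb⟩ := wst_univ (α := ℕ) r0
  have hzM : InM fun i => Nat.pair (Nat.pair a b) (p i) := (InM.const _).pair hp
  set z : ℕ → ℕ := fun i => Nat.pair (Nat.pair a b) (p i) with hz
  have hzi : ∀ i, (z i).unpair = (Nat.pair a b, p i) := fun i => by simp [hz]
  have hyM : InM fun i => 2 * z i + 2 := hzM.comp (f := fun n => 2 * n + 2) (by fun_prop)
  have e1 : (mk _ hyM ∈ X ↔ ∀ᶠ i in (U : Filter ℕ), A1 (p i) (2 * z i + 2)) := by
    refine (hZ _).1.trans (ev_congr ?_)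
    filter_upwards [rep_mk hyM] with i h1
    rw [h1]
  have e0 : (mk _ hyM ∉ X ↔ ∀ᶠ i in (U : Filter ℕ), A0 (p i) (2 * z i + 2)) := by
    refine (hZ _).2.trans (ev_congr ?_)
    filter_upwards [rep_mk hyM] with i h1
    rw [h1]
  have ha' : ∀ i, A1 (p i) (2 * z i + 2) ↔ ∃ s, wst ℕ a s (Nat.pair (p i) (z i)) = true := by
    intro i
    rw [← ha]
    simp
  have hb' : ∀ i, A0 (p i) (2 * z i + 2) ↔ ∃ s, wst ℕ b s (Nat.pair (p i) (z i)) = true := by
    intro i
    rw [← hb]
    simp
  by_cases hX : mk _ hyM ∈ X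
  · -- the first index accepts
    have h1 := e1.1 hX
    have h0 := ev_not.2 (mt e0.2 (not_not.2 hX))
    obtain ⟨s, hs, hs2⟩ := InM.wit (P := fun z s => sel z s = true)
      (RE.of_bool (f := fun q : ℕ × ℕ => sel q.1 q.2) (by unfold sel; fun_prop)) hzM (by
        filter_upwards [h1, h0] with i h2 h3
        obtain ⟨s, h4⟩ := (ha' i).1 h2
        refine ⟨s, ?_⟩
        have h5 : wst ℕ b s (Nat.pair (p i) (z i)) = false := by
          by_contra h6
          exact h3 ((hb' i).2 ⟨s, by simpa using h6⟩)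
        simp only [sel, hzi, Nat.unpair_pair, Bool.and_eq_true, Bool.not_eq_true']
        exact ⟨h4, h5⟩)
    have hm : InM fun i => Nat.pair (z i) (s i) := hzM.pair hs
    refine hB (mk _ hm) ?_
    have h5 : mk (fun i => fB (rep (mk _ hm) i)) ((rep_inM _).comp c_fB) = mk _ hyM := by
      rw [mm_ext]
      filter_upwards [rep_mk ((rep_inM (mk _ hm)).comp c_fB), rep_mk hm, rep_mk hyM, hs2]
        with i h6 h7 h8 h9
      rw [h6, h7, h8]
      simp only [fB, Nat.unpair_pair]
      rw [h9]
      rfl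
    rw [h5]
    exact hX
  · have h1 := e0.1 hX
    have h0 := ev_not.2 (mt e1.2 hX)
    obtain ⟨s, hs, hs2⟩ := InM.wit (P := fun z s => les z s = true)
      (RE.of_bool (f := fun q : ℕ × ℕ => les q.1 q.2) (by unfold les; fun_prop)) hzM (by
        filter_upwards [h1, h0] with i h2 h3
        obtain ⟨s, h4⟩ := (hb' i).1 h2
        refine ⟨s, ?_⟩
        have h5 : wst ℕ a s (Nat.pair (p i) (z i)) = false := by
          by_contra h6
          exact h3 ((ha' i).2 ⟨s, by simpa using h6⟩)
        simp only [les, hzi, Nat.unpair_pair, Bool.and_eq_true, Bool.not_eq_true']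
        exact ⟨h4, h5⟩)
    have hm : InM fun i => Nat.pair (z i) (s i) := hzM.pair hs
    have h5 : mk (fun i => fA (rep (mk _ hm) i)) ((rep_inM _).comp c_fA) = mk _ hyM := by
      rw [mm_ext]
      filter_upwards [rep_mk ((rep_inM (mk _ hm)).comp c_fA), rep_mk hm, rep_mk hyM, hs2]
        with i h6 h7 h8 h9
      rw [h6, h7, h8]
      simp only [fA, Nat.unpair_pair]
      rw [h9]
      rfl
    have h6 := hA (mk _ hm)
    rw [h5] at h6
    exact hX h6

end Pool.Agent.Y579.DC
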